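import Mathlib
import Pool.Agent.N205.SE.Charzero
import Pool.Agent.N205.SG.Count

/-!
# The Tate conjecture over number fields: abelian varieties with almost any reduction in any Newton
stratum times all varieties

Let `g i` (`i` in a finite set `I`) be positive integers, `B` any number and `d` a number such that
either `d ≤ 2`, or `d ≤ g i` and `g i` is three or at least five, for all `i` (`DimsU`).  By Honda and
Tate the irreducible polynomials in `weilPolys (p ^ a) g` correspond to the isogeny classes of the
simple abelian varieties over the field with `q = p ^ a` elements whose field `ℚ (π)` has degree
`2 g`; the characteristic polynomial of the Frobenius is a power of the polynomial (the polynomial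
itself if `a = 1` or if the abelian variety is ordinary).

Let `S i` be a **stratum** (`IsStratum p a (g i) t (S i)`), for instance the set of the Weil
polynomials of degree `2 g i` whose Newton polygon is a given one, or lies on or above a given one,
or any set in between, or the set of the Weil polynomials of given `p`-rank. The parameter `t` may be
`a` if the `p`-rank is at least two, and any number `t ≤ a (1 - 2 λ) - 1` where `λ` is the first slope
(normalised so that the supersingular polygon has slope one half), see `StrataFacts`: so every
stratum except for the supersingular one is included as soon as `a (1 - 2 λ) ≥ 2`.

There is a constant `C`, depending only on `g`, `d` and `B`, such that the following holds.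

**(1)** For all families `f i` in `S i` with the exception of a proportion at most
`C (p ^ t) ^ (-1 / 6) log (p ^ t)`, the statement below holds for **all** varieties `Z` which satisfy
the natural condition of independence (`Indep`): no power `α ^ N`, `N > 0`, of a root `α` of one of the
`f i` is a product of powers (with positive or negative exponents) of `q` and of eigenvalues of
Frobenius of `Z`. Here the exceptional families do not depend on `Z`, not even on its dimension.

Let `A` be an abelian variety over a number field `k` which has good reduction at ONE place `v` with
residue field of `q` elements, such that the reduction is isogenous to a product of abelian varieties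
with characteristic polynomials `f i` (so the reduction may have any Newton polygon). Let `Z` be
**any** smooth projective variety over `k` with good reduction at `v` whose reduction is independent
from the `f i`. **Then the Tate conjecture for all the varieties `A ^ n × Z` is equivalent to the Tate
conjecture for `Z`** (for all primes `ℓ` not divisible by `v`): all the Tate classes on `A ^ n × Z` are
linear combinations of the products of intersections of divisors on `A ^ n` with Tate classes on `Z`.

In the Lean statement `V` is the rational Tate module with the action `ρ` of the Galois group, `χ`
is the cyclotomic character, `γ` is an arithmetic Frobenius element at `v`, and `σ` is the action of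
the Galois group on `M = H^b(Z)`. By the theorem of Kunneth the cohomology of `A^n × Z` is the sum
of the spaces `H^a(A^n) ⊗ M` of alternating maps from `V ^ n` to `M` in `a` variables. That the
Tate classes of degree two on `A ^ n` are classes of divisors is the theorem of Faltings.

**(2)** Let `χ₀` be any rational polynomial of degree at most `B`, for instance the characteristic
polynomial of Frobenius on the whole cohomology of a variety `Y₀` with total Betti number at most `B`.
With the exception of a proportion at most `C (p ^ t) ^ (-1 / 6) log (p ^ t)` of the families, **all**
varieties `Z` which are tame relative to `χ₀` are independent: this is the case if the eigenvalues of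
Frobenius of `Z`, up to powers and up to a group of rank less than the `g i`, are products of rational
numbers, of roots of `χ₀` and of Weil numbers of degree less than `2 d` (`d ≥ 3`).

For example (`χ₀ = X - 1`, `d` the minimum of the `g i`): if the `g i` are three or at least five, then
for almost all families (1) applies to **all** varieties, of any dimension, with all Betti numbers less
than `2 d`, to all products of such varieties, and to the products of these with all varieties
whose eigenvalues generate a group of rank less than `d`. For arbitrary `g i` and `B`: for **every**
variety `Y₀` with total Betti number at most `B` over the field with `q` elements, almost all families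
are such that (1) applies to all powers of `Y₀`, to their products with all varieties as before (if
`d ≥ 3`), and with all varieties of Frobenius rank less than the `g i`.

The idea of the proof: by a sieve (helper521, helper484) almost all families in a stratum are such
that each pair `α`, `q / α` of roots can be exchanged by a Galois automorphism which fixes all the
other roots of all the `f i`. Such an automorphism, applied to a relation between roots of the `f i`
and eigenvalues of `Z`, shows that a power of `α` is a product of powers of `q` and of
eigenvalues of `Z`. For (2) let `K` be a normal extension of `ℚ` without roots of the `f i`; the
conjugates of `α` generate a group of rank `g i` even modulo `K`, so that `Z` is independent if its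
eigenvalues generate a group of rank less than the `g i` modulo `K`. We take for `K` the smallest
field which contains the roots of `χ₀` and is closed under solving equations of degree less than `d`;
it contains the Weil numbers of degree less than `2 d`. One needs for each subfield `F` of `K` of
bounded degree that few families have a root `α` with `ℚ (α) = F`: if one such family has a certain
factorisation pattern modulo a prime `ℓ` then all the others do not have another, incompatible one,
which is excluded by the sieve for all `F` at once with the same constant. Moreover one shows by
another sieve that the Galois group of the real Weil polynomial is the symmetric group; its nontrivial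
quotients which are obtained by extensions of degree less than `d ≤ g i` are of order two, because the
alternating group is simple (or because of `g i = 3`).

In a Newton stratum the coefficients of the real Weil polynomials are divisible by powers of `p`, and
the quotients run through a box with sides at least `p ^ (t / 2)` up to constants; the events of the
sieve at the primes `ℓ ≠ p` are transported by the multiplication with the powers of `p`. The lower
bound for the number of elements of a stratum is obtained by perturbing the Dickson polynomials,
whose coefficients have the right divisibility by `p` because the polygon lies below the
supersingular one.
-/

set_option autoImplicit false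

namespace Pool.Agent.Results.MP_938ce2_ag.EveryVariety

open Polynomial Pool.Agent.N205.SG

open Pool.Agent.N205.SE (TateProductsIndep)

/-- `StrataFacts`: the sets of the Weil polynomials with given Newton polygon, or with Newton
polygon on or above a given one, and the sets of those of given `p`-rank, are strata. -/
theorem result :
    (∀ {I : Type} [Fintype I] (g : I → ℕ) (_ : ∀ i, 0 < g i) (d : ℕ) (_ : DimsU g d) (B : ℕ),
      ∃ C : ℝ, ∀ p a t : ℕ, p.Prime → 0 < a → 0 < t → ∀ S : I → Set ℤ[X],
        (∀ i, IsStratum p a (g i) t (S i)) →
        (∀ i, (S i).Finite ∧ (4 ^ g i ≤ p ^ t → (S i).Nonempty)) ∧
        ({f : I → ℤ[X] | (∀ i, f i ∈ S i) ∧ ¬ TateProductsIndep (p ^ a) f}.ncard : ℝ) ≤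
          C * (Real.log ((p ^ t : ℕ) : ℝ) * ((p ^ t : ℕ) : ℝ) ^ (-(1 / 6) : ℝ)) *
            ∏ i, ((S i).ncard : ℝ) ∧
        ∀ χ₀ : ℚ[X], χ₀ ≠ 0 → χ₀.natDegree ≤ B →
          ({f : I → ℤ[X] | (∀ i, f i ∈ S i) ∧ ¬ TameIndep g d (p ^ a) χ₀ f}.ncard : ℝ) ≤
            C * (Real.log ((p ^ t : ℕ) : ℝ) * ((p ^ t : ℕ) : ℝ) ^ (-(1 / 6) : ℝ)) *
              ∏ i, ((S i).ncard : ℝ)) ∧
    StrataFacts :=
  ⟨fun g hg d hd B => indep_unif g hg d hd B (fun q f => TateProductsIndep q f)
    fun _ hq x hx => Pool.Agent.N205.SE.CZ.tateProducts_indep g hg hq.pos.ne' x hx, strataFacts⟩

end Pool.Agent.Results.MP_938ce2_ag.EveryVariety
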