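import Mathlib
import Pool.Agent.N166.BL.Fin
import Pool.Agent.N205.NS.Final

/-!
# The conjecture of Beilinson and Bloch for products with almost all constant abelian varieties of
every Newton stratum

Let `g i` (`i` in a finite set `I`) be positive integers, `r` an integer smaller than all the `g i`
and `E` a number field.  By Honda and Tate the irreducible polynomials in `weilPolys (p ^ a) g`
correspond to the isogeny classes of the simple abelian varieties over the field with `q = p ^ a`
elements whose field `ℚ (π)` has degree `2 g`; the characteristic polynomial of the Frobenius is a
power of the polynomial (the polynomial itself if `a = 1` or if the abelian variety is ordinary).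

The library theorem `ConstantAbelianFactors` is about sets of Weil polynomials which contain all the
ordinary ones; in these the other Newton strata have density zero. Here `S i` is a **stratum** (`IsStratum p a (g i)
t (S i)`), for instance the set of the Weil polynomials of degree `2 g i` whose Newton polygon is a
given one, or lies on or above a given one, or any set in between, or the set of the Weil polynomials
of given `p`-rank. The parameter `t` may be `a` if the `p`-rank is at least two, and any number
`t ≤ a (1 - 2 λ) - 1` where `λ` is the first slope (normalised so that the supersingular polygon has
slope one half), see `StrataFacts`: so every stratum except for the supersingular one is included as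
soon as `a (1 - 2 λ) ≥ 2`. The proportion of the exceptions is
`O ((p ^ t) ^ (-1 / 6) log (p ^ t))` uniformly in `p`, `a` and the Newton polygons; it tends to zero
for `p → ∞` and for `a → ∞`. The assumption `t > 0` cannot be omitted: over the field with `p`
elements a positive proportion of the Weil polynomials of degree four and `p`-rank one is
reducible.

For all families `f i` in `S i` with the exception of a proportion at most
`C (p ^ t) ^ (-1 / 6) log (p ^ t)`, the constant `C` depending only on `g`, `r` and `E`, the following holds for all `s > 0`, all abelian
varieties `A` over the field `k` with `q ^ s` elements, isogenous to products of powers of abelian
varieties coming from the field with `q`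
elements whose characteristic polynomials are powers of the `f i`, and **all**
smooth projective varieties `Y` over `k` such that the eigenvalues of Frobenius on the cohomology of
`Y` and their conjugates generate a group of rank at most `r` modulo the group of the numbers with a
power in `E`, and such that homologically trivial self-correspondences of `A × Y` are nilpotent (for
instance if `Y` is dominated by a product of curves).

Let `K` be a global function field with field of constants `k`, that is, the function field of a
curve over `k`, let `Z` be a smooth projective variety over `K` which is the generic fibre of a
morphism from `Y` to the curve, in general not constant, and let `A_K` be the constant abelian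
variety over `K`. **Then the conjectures of Beilinson and Bloch for `A_K × Z` and for `Z` are
equivalent**: there are products `D_a` of divisors on `A_K` such that

* all cycles on `A_K × Z` modulo rational equivalence are sums of the `D_a × z_a` with cycles
  `z_a` on `Z`, in a unique way, homologically trivial if and only if the `z_a` are;
* the order of vanishing of `L (H^(2 i - 1)(A_K × Z), s)` at `s = i` is the sum of the orders of
  vanishing of the `L (H^(2 (i - deg a) - 1)(Z), s)` at `s = i - deg a`;
* the formula `dim CH^i(X)_0 = ord_{s = i} L (H^(2 i - 1)(X), s)` holds for `X = A_K × Z` and all
  `i ≤ N` if and only if it holds for `X = Z` and all `i ≤ N`.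

For instance, if `Z` is a curve over `K` then the conjecture of Beilinson and Bloch for `A_K × Z`, in
all codimensions, is equivalent to the conjecture of Birch and Swinnerton-Dyer for the Jacobian of
`Z`, that is, to the conjecture of Tate for the surface `Y` (`Y` dominated by a product of curves, of
small Frobenius rank); if `Z` is a nonisotrivial elliptic curve then the ranks can be positive.

The theorems of the starting files (`AlmostAllAbelianVarieties`, `AllCMTypesConstant`, ...) are
about `A_K` alone. The idea of the proof: by a sieve (helper521) almost all families are such that
each pair `α`, `q / α` of roots can be exchanged by a Galois automorphism which fixes all the other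
roots and the elements of `E`. By helper484 it follows that the Chow groups of `A × Y` are generated
by products of intersections of divisors on `A` with the Chow groups of `Y`; by restriction to the
generic fibre the same holds for `A_K × Z`. The Galois group of `K` acts on the cohomology of `A_K`
through the Frobenius endomorphism, so that the L-functions of `A_K × Z` are products of the
functions `L (H^m(Z), α T)`, where `α` is a product of Frobenius eigenvalues of `A`. The zeros and poles
of the L-functions of `Z` are inverses of Frobenius eigenvalues of `Y` (Grothendieck, Deligne), so
that only the `α` which are powers of `q ^ s` contribute to the order of vanishing at integers, and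
by Tate their number is the number of the `D_a`.

The new part of the proof: in a Newton stratum the coefficients of the real Weil polynomials are
divisible by powers of `p`, and the quotients run through a box with sides at least `p ^ (t / 2)` up
to constants. The events of the sieve of helper521 and helper484 at the primes `ℓ ≠ p` are
transported by the multiplication with the powers of `p`. The lower bound for the number of
elements of a stratum is obtained by perturbing the Dickson polynomials, whose coefficients
have the right divisibility by `p` because the polygon lies below the supersingular one.
-/

set_option autoImplicit false

namespace Pool.Agent.Results.MP_0b9e0b_ag.NewtonStrata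

open Polynomial Pool.Agent.W484.TB
  Pool.Agent.N166.BL Pool.Agent.N205.NS

/-- `StrataFacts`: the sets of the Weil polynomials with given Newton polygon, or with Newton
polygon on or above a given one, and the sets of those of given `p`-rank, are strata. -/
theorem result :
    (∀ {I : Type} [Fintype I] (g : I → ℕ) (r : ℕ) (_ : ∀ i, r < g i)
      (E : IntermediateField ℚ ℂ) [FiniteDimensional ℚ E],
      ∃ C : ℝ, ∀ p a t : ℕ, p.Prime → 0 < a → 0 < t → ∀ S : I → Set ℤ[X],
        (∀ i, IsStratum p a (g i) t (S i)) →
        (∀ i, (S i).Finite ∧ (4 ^ g i ≤ p ^ t → (S i).Nonempty)) ∧
        ({f : I → ℤ[X] | (∀ i, f i ∈ S i) ∧ ¬ BlochForRankOver E (p ^ a) r f}.ncard : ℝ) ≤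
          C * (Real.log ((p ^ t : ℕ) : ℝ) * ((p ^ t : ℕ) : ℝ) ^ (-(1 / 6) : ℝ)) *
            ∏ i, ((S i).ncard : ℝ)) ∧
    StrataFacts :=
  ⟨fun g r hr E _ => strata_count (splitPrimes E) (dense_splitPrimes E) g
    (fun i => (Nat.zero_le r).trans_lt (hr i)) (fun q f => BlochForRankOver E q r f)
    fun _ hq x hx => blochForRankOver_of_good g E hq.one_lt r hr x hx, strataFacts⟩

end Pool.Agent.Results.MP_0b9e0b_ag.NewtonStrata
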