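import Mathlib
import Pool.Agent.W484.CK.Main
import Pool.Agent.N205.NS.Final

/-!
# The conjecture of Parshin on rational K-theory and products with almost all abelian varieties of
every Newton stratum

Let `g i` (`i` in a finite set `I`) be positive integers, `r` an integer smaller than all the `g i`
and `E` a number field.  By Honda and Tate the irreducible polynomials in `weilPolys (p ^ a) g`
correspond to the isogeny classes of the simple abelian varieties over the field with `q = p ^ a`
elements whose field `ℚ (π)` has degree `2 g`; the characteristic polynomial of the Frobenius is a
power of the polynomial (the polynomial itself if `a = 1` or if the abelian variety is ordinary).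

The sieve of helper521 and helper484 is about sets of Weil polynomials which contain all the
ordinary ones; in these the other Newton strata have density zero. The starting file
`NewtonStrata` of helper518 (`MP_ee618e_ag`) is about the Tate classes on products of powers of the
abelian varieties in a Newton stratum themselves, without a second factor, for fixed `p` and
`a → ∞`, without a rate. Here `S i` is a **stratum** (`IsStratum p a (g i) t (S i)`), for instance the set of the Weil polynomials of degree `2 g i` whose Newton polygon is a
given one, or lies on or above a given one, or any set in between, or the set of the Weil polynomials
of given `p`-rank. The parameter `t` may be `a` if the `p`-rank is at least two, and any number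
`t ≤ a (1 - 2 λ) - 1` where `λ` is the first slope (normalised so that the supersingular polygon has
slope one half), see `StrataFacts`: so every stratum except for the supersingular one is included as
soon as `a (1 - 2 λ) ≥ 2`. The proportion of the exceptions is
`O ((p ^ t) ^ (-1 / 6) log (p ^ t))` uniformly in `p`, `a` and the Newton polygons; it tends to zero
for `p → ∞` and for `a → ∞`. The assumption `t > 0` cannot be omitted: over the field with `p`
elements a positive proportion of the Weil polynomials of degree four and `p`-rank one is
reducible.

For all families `f i` in `S i` with the exception of a proportion at most
`C (p ^ t) ^ (-1 / 6) log (p ^ t)`, the constant `C` depending only on `g`, `r` and `E`, the following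
holds for all `s > 0`, `Q = q ^ s`, all abelian varieties `A` over the field with `Q` elements, isogenous
to products of powers of abelian varieties coming from the field with `q` elements whose
characteristic polynomials are powers of the `f i`, and all smooth projective varieties `Z` over the field
with `Q` elements such that the eigenvalues of Frobenius on the cohomology of `Z` and their conjugates
generate a group of rank at most `r` modulo the group of the numbers with a power in `E`, and the
homologically trivial self-correspondences of degree zero of `A × Z` are nilpotent (for instance if
the motive of `Z` is finite-dimensional). There are finitely many products `D j` of divisor classes on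
`A`, such that for **every** theory `T` with rational coefficients on which correspondences act, such
that the Frobenius endomorphism acts on `T^i(A × Z)` as multiplication by `Q ^ i`, for instance the
groups `K_m(-)_ℚ` with the Adams decomposition for any `m`:

* the Kunneth formula `T^i(A × Z) = ⨁ D j × T^(i - deg j)(Z)` holds;
* for all `n`, `T^i(A × Z) = 0` for all `i ≤ n` if and only if `T^i(Z) = 0` for all `i ≤ n`.

Since `K_m(X)^(i)_ℚ = 0` for `i > m + dim X`, the conjecture of Parshin holds for `A × Z` if and only if it
holds for `Z`, for each `m`: `K_m(A × Z)_ℚ = 0` if and only if `K_m(Z)_ℚ = 0`. Neither the conjecture of
Tate nor the conjecture of Beilinson is assumed for `Z`.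

The idea of the proof: by a sieve (helper521, helper484), which only uses the primes `ℓ ≠ p` that
split completely in the Galois closure of `E`, almost all families in a stratum are such that each
pair `α`, `q / α` of roots can be exchanged by a Galois automorphism which fixes all the other
roots of all the `f i` and also all elements of `E`. In a Newton stratum the coefficients of the real
Weil polynomials are divisible by powers of `p`, and the quotients run through a box with sides at
least `p ^ (t / 2)` up to constants; the events of the sieve at the primes `ℓ ≠ p` are transported
by the multiplication with the powers of `p`. The lower bound for the number of elements of a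
stratum is obtained by perturbing the Dickson polynomials, whose coefficients have the right
divisibility by `p` because the polygon lies below the supersingular one.
-/

set_option autoImplicit false

namespace Pool.Agent.Results.MP_27fd67_ag.NewtonStrata

open Polynomial Pool.Agent.W484.TB Pool.Agent.W484.CK
  Pool.Agent.N205.NS

/-- `StrataFacts`: the sets of the Weil polynomials with given Newton polygon, or with Newton
polygon on or above a given one, and the sets of those of given `p`-rank, are strata. -/
theorem result :
    (∀ {I : Type} [Fintype I] (g : I → ℕ) (r : ℕ) (_ : ∀ i, r < g i)
      (E : IntermediateField ℚ ℂ) [FiniteDimensional ℚ E],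
      ∃ C : ℝ, ∀ p a t : ℕ, p.Prime → 0 < a → 0 < t → ∀ S : I → Set ℤ[X],
        (∀ i, IsStratum p a (g i) t (S i)) →
        (∀ i, (S i).Finite ∧ (4 ^ g i ≤ p ^ t → (S i).Nonempty)) ∧
        ({f : I → ℤ[X] | (∀ i, f i ∈ S i) ∧ ¬ MotivicForRankOver E (p ^ a) r f}.ncard : ℝ) ≤
          C * (Real.log ((p ^ t : ℕ) : ℝ) * ((p ^ t : ℕ) : ℝ) ^ (-(1 / 6) : ℝ)) *
            ∏ i, ((S i).ncard : ℝ)) ∧
    StrataFacts :=
  ⟨fun g r hr E _ => strata_count (splitPrimes E) (dense_splitPrimes E) g
    (fun i => (Nat.zero_le r).trans_lt (hr i)) (fun q f => MotivicForRankOver E q r f)
    fun _ hq x hx => motivicForRankOver_of_good g E hq.one_lt r hr x hx, strataFacts⟩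

end Pool.Agent.Results.MP_27fd67_ag.NewtonStrata
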