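import Mathlib
import Pool.Agent.N166.MU.Main
import Pool.Agent.N205.NS.Final

/-!
# The conjectures of Murre for products with almost all constant abelian varieties of every Newton
stratum

Let `g i` (`i` in a finite set `I`) be positive integers, `r` an integer smaller than all the `g i`
and `E` a number field.  By Honda and Tate the irreducible polynomials in `weilPolys (p ^ a) g`
correspond to the isogeny classes of the simple abelian varieties over the field with `q = p ^ a`
elements whose field `ℚ (π)` has degree `2 g`; the characteristic polynomial of the Frobenius is a
power of the polynomial (the polynomial itself if `a = 1` or if the abelian variety is ordinary).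

The library theorem `ConstantAbelianFactors` is about sets of Weil polynomials which contain all the
ordinary ones; in these the other Newton strata have density zero. Here `S i` is a **stratum** (`IsStratum p a (g i)
t (S i)`), for instance the set of the Weil polynomials of degree `2 g i` whose Newton polygon is a
given one, or lies on or above a given one, or any set in between, or the set of the Weil polynomials
of given `p`-rank. The parameter `t` may be `a` if the `p`-rank is at least two, and any number
`t ≤ a (1 - 2 λ) - 1` where `λ` is the first slope (normalised so that the supersingular polygon has
slope one half), see `StrataFacts`: so every stratum except for the supersingular one is included as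
soon as `a (1 - 2 λ) ≥ 2`. The proportion of the exceptions is
`O ((p ^ t) ^ (-1 / 6) log (p ^ t))` uniformly in `p`, `a` and the Newton polygons; it tends to zero
for `p → ∞` and for `a → ∞`. The assumption `t > 0` cannot be omitted: over the field with `p`
elements a positive proportion of the Weil polynomials of degree four and `p`-rank one is
reducible.

For all families `f i` in `S i` with the exception of a proportion at most
`C (p ^ t) ^ (-1 / 6) log (p ^ t)`, the constant `C` depending only on `g`, `r` and `E`, the following holds for all `s > 0`, all abelian varieties
`A` over the field `k` with `q ^ s` elements, isogenous to products of powers of abelian varieties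
coming from the field with `q`
elements whose characteristic polynomials are powers of the `f i`, and all smooth
projective varieties `Y` over `k` such that

* the eigenvalues of Frobenius on the cohomology of `Y` and their conjugates generate a group of
  rank at most `r` modulo the group of the numbers with a power in `E`;
* homologically trivial self-correspondences of `A × Y` are nilpotent, for instance `Y` is dominated
  by a product of curves, or `Y` is a rational surface.

Let `K` be the function field of any variety `S` over `k`, let `Z` be a smooth projective
variety over `K` which is the generic fibre of a morphism `Y → S`, and let `A_K` be the constant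
abelian variety over `K`. **Then the conjectures of Murre for `A_K × Z` and for `Z` are equivalent:**
there are products `D_j` of `c_j` divisor classes on `A_K` such that `CH^i(A_K × Z)` is the direct
sum of the `D_j × CH^(i - c_j)(Z)` (rational coefficients), the product of any Chow-Kunneth
decompositions of `A_K` and `Z` has the filtration `F^n CH^i(A_K × Z) = ⊕ D_j × F^n CH^(i-c_j)(Z)`,
and it satisfies the first half of (B), the second half of (B), or (D), if and only if the
decomposition of `Z` does.

For `Z` of dimension at most two over the global (or any) function field `K`, Murre's decomposition
satisfies (B) and (D); so (A), (B) and (D) hold for `A_K × Z` unconditionally, of arbitrarily large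
dimension. For `Z` a point (`Y = S`) this holds for the constant abelian varieties themselves, and
the filtration is `F^1 = 0`.

The idea of the proof: by a sieve (helper521) almost all families are such that each pair `α`,
`q / α` of roots can be exchanged by a Galois automorphism which fixes all the other roots and the
elements of `E`. By helper484 it follows that the Chow groups of `A × Y` are generated by the
`D_j × CH(Y)`. As the restriction to the generic fibre is surjective, the same holds for the Chow
groups of `A_K × Z`. It follows that homologically trivial cycles on `A_K` itself vanish, so that all
Chow-Kunneth projectors of `A_K` act on the `D_j` as `0` or `1`.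

The new part of the proof: in a Newton stratum the coefficients of the real Weil polynomials are
divisible by powers of `p`, and the quotients run through a box with sides at least `p ^ (t / 2)` up
to constants. The events of the sieve of helper521 and helper484 at the primes `ℓ ≠ p` are
transported by the multiplication with the powers of `p`. The lower bound for the number of
elements of a stratum is obtained by perturbing the Dickson polynomials, whose coefficients
have the right divisibility by `p` because the polygon lies below the supersingular one.
-/

set_option autoImplicit false

namespace Pool.Agent.Results.MP_38de51_ag.NewtonStrata

open Polynomial Pool.Agent.W484.TB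
  Pool.Agent.W484.CK Pool.Agent.N166.MU Pool.Agent.N205.NS

/-- `StrataFacts`: the sets of the Weil polynomials with given Newton polygon, or with Newton
polygon on or above a given one, and the sets of those of given `p`-rank, are strata. -/
theorem result :
    (∀ {I : Type} [Fintype I] (g : I → ℕ) (r : ℕ) (_ : ∀ i, r < g i)
      (E : IntermediateField ℚ ℂ) [FiniteDimensional ℚ E],
      ∃ C : ℝ, ∀ p a t : ℕ, p.Prime → 0 < a → 0 < t → ∀ S : I → Set ℤ[X],
        (∀ i, IsStratum p a (g i) t (S i)) →
        (∀ i, (S i).Finite ∧ (4 ^ g i ≤ p ^ t → (S i).Nonempty)) ∧
        ({f : I → ℤ[X] | (∀ i, f i ∈ S i) ∧ ¬ MurreForRankOver E (p ^ a) r f}.ncard : ℝ) ≤
          C * (Real.log ((p ^ t : ℕ) : ℝ) * ((p ^ t : ℕ) : ℝ) ^ (-(1 / 6) : ℝ)) *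
            ∏ i, ((S i).ncard : ℝ)) ∧
    StrataFacts :=
  ⟨fun g r hr E _ => strata_count (splitPrimes E) (dense_splitPrimes E) g
    (fun i => (Nat.zero_le r).trans_lt (hr i)) (fun q f => MurreForRankOver E q r f)
    fun _ hq x hx => murreForRankOver_of_good g E hq.one_lt r hr x hx, strataFacts⟩

end Pool.Agent.Results.MP_38de51_ag.NewtonStrata
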