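import Mathlib
import Pool.Agent.Y154.BQ.Fin
import Pool.Agent.N205.NS.Final

/-!
# Rational and numerical equivalence on products with almost all abelian varieties of every Newton
stratum

Let `g i` (`i` in a finite set `I`) be positive integers, `r` an integer smaller than all the `g i`
and `E` a number field.  By Honda and Tate the irreducible polynomials in `weilPolys (p ^ a) g`
correspond to the isogeny classes of the simple abelian varieties over the field with `q = p ^ a`
elements whose field `ℚ (π)` has degree `2 g`; the characteristic polynomial of the Frobenius is a
power of the polynomial (the polynomial itself if `a = 1` or if the abelian variety is ordinary).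

The library theorem `AlmostAllAbelianPerfect` is about sets of Weil polynomials which contain all the
ordinary ones; in these the other Newton strata have density zero. Here `S i` is a **stratum** (`IsStratum p a (g i)
t (S i)`), for instance the set of the Weil polynomials of degree `2 g i` whose Newton polygon is a
given one, or lies on or above a given one, or any set in between, or the set of the Weil polynomials
of given `p`-rank. The parameter `t` may be `a` if the `p`-rank is at least two, and any number
`t ≤ a (1 - 2 λ) - 1` where `λ` is the first slope (normalised so that the supersingular polygon has
slope one half), see `StrataFacts`: so every stratum except for the supersingular one is included as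
soon as `a (1 - 2 λ) ≥ 2`. The proportion of the exceptions is
`O ((p ^ t) ^ (-1 / 6) log (p ^ t))` uniformly in `p`, `a` and the Newton polygons; it tends to zero
for `p → ∞` and for `a → ∞`. The assumption `t > 0` cannot be omitted: over the field with `p`
elements a positive proportion of the Weil polynomials of degree four and `p`-rank one is
reducible.

For all families `f i` in `S i` with the exception of a proportion at most
`C (p ^ t) ^ (-1 / 6) log (p ^ t)`, the constant `C` depending only on `g`, `r` and `E`, the following holds for all `s > 0`, `Q = q ^ s`, all
abelian varieties `A` over the field with `Q` elements which are isogenous to products of powers of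
abelian varieties coming from the field with `q`
elements whose characteristic polynomials are powers of the `f i`,
and **all** smooth projective varieties `Z` over the field with `Q` elements such that

* the eigenvalues of Frobenius on the cohomology of `Z` and their conjugates generate a group of rank
  at most `r` modulo the group of the numbers with a power in `E`;
* homologically trivial self-correspondences of degree zero of `A × Z` are nilpotent, for instance
  the motive of `Z` is finite-dimensional in the sense of Kimura and O'Sullivan. This is known for
  all varieties dominated by products of curves, and for their products with `A`.

There are finitely many products `D j` of divisors on `A`, of codimension `c j`, such that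
`CH^n(A × Z)_ℚ = ⨁ D j × CH^(n - c j)(Z)_ℚ` for all `n`; the Kunneth formula
`⨁ CH^i(A)_ℚ ⊗ CH^(n-i)(Z)_ℚ = CH^n(A × Z)_ℚ` holds, and **the pairing**
`CH^n(A × Z)_ℝ × CH^(d-n)(A × Z)_ℝ → ℝ`, `d = dim A + dim Z`, **of the question is perfect if and
only if the pairings** `CH^m(Z)_ℝ × CH^(dim Z - m)(Z)_ℝ → ℝ` **with** `n - dim A ≤ m ≤ n` **are
perfect.** In particular the conjecture of Beilinson for `A × Z` is equivalent to the one for `Z`,
degree by degree.

For `Z` a curve or a surface with the two properties all pairings for `Z` are perfect, by the
theorems quoted in the question, and so are all pairings for `A × Z`, for almost all `A` of any
dimension and all `Z` (which is fixed, or varies with `q` in a set of varieties for which the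
rank of the Frobenius eigenvalues modulo `E` is at most `r`).

For `r = 0` the assumption on the eigenvalues is: the eigenvalues of Frobenius and their conjugates
have powers in `E`.  If for instance `Z` is any given variety over the field with `q'` elements, one
can take for `E` the field generated by the eigenvalues of Frobenius and their conjugates, and
applies the theorem to the powers `q` of `q'`.

The framework (`TheoryData`, `IsChow`, `IsWeil`, `IsSituation`) is the one of helper492 and
helper484: the Chow groups `C` with rational coefficients, their pull-backs, push-forwards and
products, and a Weil cohomology theory `H` with coefficients in an algebraically closed field `K`, on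
a class `𝒱` of smooth proper varieties over `k`.  The space `CH^n(X)_ℝ` is `ℝ ⊗ CH^n(X)`; this is
the tensor product over `ℚ` of `ℝ` with the Chow group with rational coefficients, hence the
tensor product over `ℤ` of `ℝ` with the Chow group.

The idea of the proof: by a sieve (helper521), which only uses the primes that split completely in
the Galois closure of `E` - these have positive density by the theorem of Chebotarev, formalized by
helper401 - almost all families are such that each pair `α`, `q / α` of roots can be exchanged by a
Galois automorphism which fixes all the other roots of all the `f i` and also all elements of `E`.
It follows that the generalized eigenvectors of Frobenius in the cohomology of `A × Z` for the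
eigenvalues `Q ^ i` are sums of products of classes of products of divisors on `A` and of classes on
`Z`. Let `p` be the projector given by the `D j` and dual classes `D' j`, and `P` a polynomial killing
all the other eigenvalues and with `P (Q ^ i) = 1`. The correspondence `(1 - p) P (F)` is
homologically trivial, hence nilpotent; as it acts on `CH^i(A × Z)_ℚ` as the idempotent `1 - p`, this
idempotent is zero (helper484; the idea to play the eigenvalues of Frobenius off against nilpotence
is due to Soule, Geisser and Kahn).  So `CH^n(A × Z)_ℚ` is the sum of the `CH^(n - c j)(Z)_ℚ`, and
`deg ((D j × z) (D' l × w)) = δ_{jl} deg (z w)`: the pairing of the question for `A × Z` is the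
orthogonal sum of the pairings for `Z`, and every `m` with `n - dim A ≤ m ≤ n` occurs, since the
powers of an ample divisor on `A` have non-zero classes.

The new part of the proof: in a Newton stratum the coefficients of the real Weil polynomials are
divisible by powers of `p`, and the quotients run through a box with sides at least `p ^ (t / 2)` up
to constants. The events of the sieve of helper521 and helper484 at the primes `ℓ ≠ p` are
transported by the multiplication with the powers of `p`. The lower bound for the number of
elements of a stratum is obtained by perturbing the Dickson polynomials, whose coefficients
have the right divisibility by `p` because the polygon lies below the supersingular one.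
-/

set_option autoImplicit false

namespace Pool.Agent.Results.MP_4960c7_ag.NewtonStrata

open Polynomial Pool.Agent.W484.TB
  Pool.Agent.W484.CK Pool.Agent.Y154.BQ Pool.Agent.N205.NS

/-- `StrataFacts`: the sets of the Weil polynomials with given Newton polygon, or with Newton
polygon on or above a given one, and the sets of those of given `p`-rank, are strata. -/
theorem result :
    (∀ {I : Type} [Fintype I] (g : I → ℕ) (r : ℕ) (_ : ∀ i, r < g i)
      (E : IntermediateField ℚ ℂ) [FiniteDimensional ℚ E],
      ∃ C : ℝ, ∀ p a t : ℕ, p.Prime → 0 < a → 0 < t → ∀ S : I → Set ℤ[X],
        (∀ i, IsStratum p a (g i) t (S i)) →
        (∀ i, (S i).Finite ∧ (4 ^ g i ≤ p ^ t → (S i).Nonempty)) ∧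
        ({f : I → ℤ[X] | (∀ i, f i ∈ S i) ∧ ¬ PairingForRankOver E (p ^ a) r f}.ncard : ℝ) ≤
          C * (Real.log ((p ^ t : ℕ) : ℝ) * ((p ^ t : ℕ) : ℝ) ^ (-(1 / 6) : ℝ)) *
            ∏ i, ((S i).ncard : ℝ)) ∧
    StrataFacts :=
  ⟨fun g r hr E _ => strata_count (splitPrimes E) (dense_splitPrimes E) g
    (fun i => (Nat.zero_le r).trans_lt (hr i)) (fun q f => PairingForRankOver E q r f)
    fun _ hq x hx => pairingForRankOver_of_good g E hq.one_lt r hr x hx, strataFacts⟩

end Pool.Agent.Results.MP_4960c7_ag.NewtonStrata
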