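import Mathlib
import Pool.Agent.N166.AB.Main
import Pool.Agent.N205.NS.Final

/-!
# The Chow motives generated by almost all abelian varieties of every Newton stratum

Let `g i` (`i` in a finite set `I`) be positive integers, `r` an integer smaller than all the `g i`
and `E` a number field.  By Honda and Tate the irreducible polynomials in `weilPolys (p ^ a) g`
correspond to the isogeny classes of the simple abelian varieties over the field with `q = p ^ a`
elements whose field `ℚ (π)` has degree `2 g`; the characteristic polynomial of the Frobenius is a
power of the polynomial (the polynomial itself if `a = 1` or if the abelian variety is ordinary).

The library theorem `AlmostAllAbelianMotives` is about sets of Weil polynomials which contain all the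
ordinary ones; in these the other Newton strata have density zero. Here `S i` is a **stratum** (`IsStratum p a (g i)
t (S i)`), for instance the set of the Weil polynomials of degree `2 g i` whose Newton polygon is a
given one, or lies on or above a given one, or any set in between, or the set of the Weil polynomials
of given `p`-rank. The parameter `t` may be `a` if the `p`-rank is at least two, and any number
`t ≤ a (1 - 2 λ) - 1` where `λ` is the first slope (normalised so that the supersingular polygon has
slope one half), see `StrataFacts`: so every stratum except for the supersingular one is included as
soon as `a (1 - 2 λ) ≥ 2`. The proportion of the exceptions is
`O ((p ^ t) ^ (-1 / 6) log (p ^ t))` uniformly in `p`, `a` and the Newton polygons; it tends to zero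
for `p → ∞` and for `a → ∞`. The assumption `t > 0` cannot be omitted: over the field with `p`
elements a positive proportion of the Weil polynomials of degree four and `p`-rank one is
reducible.

For all families `f i` in `S i` with the exception of a proportion at most
`C (p ^ t) ^ (-1 / 6) log (p ^ t)`, the constant `C` depending only on `g`, `r` and `E`, the following holds for all `s > 0`, `Q = q ^ s`, every
family `A j` of abelian varieties over the field `k` with `Q` elements, isogenous to products of
powers of abelian varieties coming from the field with `q`
elements whose characteristic polynomials are powers of the `f i`, and every family `Z j` of smooth projective varieties over `k` such that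

* the eigenvalues of Frobenius on the cohomology of `Z i × Z j` and their conjugates generate a
  group of rank at most `r` modulo the group of the numbers with a power in `E`;
* homologically trivial self-correspondences of `(A i × A j) × (Z i × Z j)` are nilpotent, for
  instance the motives of the `Z j` are finite-dimensional in the sense of Kimura and O'Sullivan;
* rational and numerical equivalence coincide on `Z i × Z j`, for instance the `Z j` are points, or
  curves (of small Frobenius rank).

**The category of Chow motives over `k` generated by all the `A j × Z j`** - the idempotent
completion of the category of finite direct sums of Tate twists `h(A_j × Z_j)(m)`, a full
subcategory of the category `CHMot(k)` of the question - **is abelian and semisimple.** For the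
trivial family of `Z j` (points) and all `A j` with the given characteristic polynomials this is the
category of Chow motives of all these abelian varieties together.

The idea of the proof: by a sieve (helper521) almost all families are such that each pair `α`,
`q / α` of roots can be exchanged by a Galois automorphism which fixes all the other roots and the
elements of `E`. By helper484 it follows that rational and numerical equivalence coincide on
`(A i × A j) × (Z i × Z j)`. It remains to prove the theorem of Jannsen for Chow motives generated by
varieties for which rational and numerical equivalence coincide on the products of two of them: a
trace formula for matrices of correspondences of degree zero between twisted motives shows that the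
endomorphism rings, which are finite-dimensional over the rational numbers, have no radical, so that
every morphism `f` has a quasi-inverse `g`, `f g f = f`, and an idempotent complete additive
category with this property is abelian and semisimple.

The new part of the proof: in a Newton stratum the coefficients of the real Weil polynomials are
divisible by powers of `p`, and the quotients run through a box with sides at least `p ^ (t / 2)` up
to constants. The events of the sieve of helper521 and helper484 at the primes `ℓ ≠ p` are
transported by the multiplication with the powers of `p`. The lower bound for the number of
elements of a stratum is obtained by perturbing the Dickson polynomials, whose coefficients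
have the right divisibility by `p` because the polygon lies below the supersingular one.
-/

set_option autoImplicit false

namespace Pool.Agent.Results.MP_6c4da4_ag.NewtonStrata

open Polynomial Pool.Agent.W484.TB
  Pool.Agent.W484.CK Pool.Agent.N166.AB Pool.Agent.N205.NS

/-- `StrataFacts`: the sets of the Weil polynomials with given Newton polygon, or with Newton
polygon on or above a given one, and the sets of those of given `p`-rank, are strata. -/
theorem result :
    (∀ {I : Type} [Fintype I] (g : I → ℕ) (r : ℕ) (_ : ∀ i, r < g i)
      (E : IntermediateField ℚ ℂ) [FiniteDimensional ℚ E],
      ∃ C : ℝ, ∀ p a t : ℕ, p.Prime → 0 < a → 0 < t → ∀ S : I → Set ℤ[X],
        (∀ i, IsStratum p a (g i) t (S i)) →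
        (∀ i, (S i).Finite ∧ (4 ^ g i ≤ p ^ t → (S i).Nonempty)) ∧
        ({f : I → ℤ[X] | (∀ i, f i ∈ S i) ∧ ¬ AbelianForRankOver E (p ^ a) r f}.ncard : ℝ) ≤
          C * (Real.log ((p ^ t : ℕ) : ℝ) * ((p ^ t : ℕ) : ℝ) ^ (-(1 / 6) : ℝ)) *
            ∏ i, ((S i).ncard : ℝ)) ∧
    StrataFacts :=
  ⟨fun g r hr E _ => strata_count (splitPrimes E) (dense_splitPrimes E) g
    (fun i => (Nat.zero_le r).trans_lt (hr i)) (fun q f => AbelianForRankOver E q r f)
    fun _ hq x hx => abelianForRankOver_of_chow (chowForRankOver_of_good g E hq.one_lt r hr x hx), strataFacts⟩

end Pool.Agent.Results.MP_6c4da4_ag.NewtonStrata
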