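import Mathlib
import Pool.Agent.Y156.L.Thms
import Pool.Agent.N205.NS.Final

/-!
# The Tate conjecture for higher Chow groups and products with almost all abelian varieties of every
Newton stratum

Let `g i` (`i` in a finite set `I`) be positive integers, `r` an integer smaller than all the `g i`
and `E` a number field.  By Honda and Tate the irreducible polynomials in `weilPolys (p ^ a) g`
correspond to the isogeny classes of the simple abelian varieties over the field with `q = p ^ a`
elements whose field `ℚ (π)` has degree `2 g`; the characteristic polynomial of the Frobenius is a
power of the polynomial (the polynomial itself if `a = 1` or if the abelian variety is ordinary).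

The library theorem `AlmostAllAbelianFactors` is about sets of Weil polynomials which contain all the
ordinary ones; in these the other Newton strata have density zero. The starting file
`NewtonStrata` of helper518 (`MP_ee618e_ag`) is about the Tate classes on products of powers of the
abelian varieties in a Newton stratum themselves, without a second factor, for fixed `p` and
`a → ∞`, without a rate. Here `S i` is a **stratum** (`IsStratum p a (g i) t (S i)`), for instance the set of the Weil polynomials of degree `2 g i` whose Newton polygon is a
given one, or lies on or above a given one, or any set in between, or the set of the Weil polynomials
of given `p`-rank. The parameter `t` may be `a` if the `p`-rank is at least two, and any number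
`t ≤ a (1 - 2 λ) - 1` where `λ` is the first slope (normalised so that the supersingular polygon has
slope one half), see `StrataFacts`: so every stratum except for the supersingular one is included as
soon as `a (1 - 2 λ) ≥ 2`. The proportion of the exceptions is
`O ((p ^ t) ^ (-1 / 6) log (p ^ t))` uniformly in `p`, `a` and the Newton polygons; it tends to zero
for `p → ∞` and for `a → ∞`. The assumption `t > 0` cannot be omitted: over the field with `p`
elements a positive proportion of the Weil polynomials of degree four and `p`-rank one is
reducible.

For all families `f i` in `S i` with the exception of a proportion at most
`C (p ^ t) ^ (-1 / 6) log (p ^ t)`, the constant `C` depending only on `g`, `r` and `E`, the following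
holds for all `s > 0`, `Q = q ^ s`, all abelian varieties `A` over the field with `Q` elements, isogenous
to products of powers of abelian varieties coming from the field with `q` elements whose
characteristic polynomials are powers of the `f i`, and **all** schemes `U` over the field with `Q`
elements: let `M` be the sum of the groups of a theory for `A × U` relative to `U` (motivic
cohomology, or `ℓ`-adic cohomology), on which the Chow ring and the correspondences of `A` act, and
`N` the sum of the groups for `U`, such that the eigenvalues of the Frobenius endomorphism of `U`
generate a group of rank at most `r` modulo the group of the numbers with a power in `E`. Then the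
Kunneth formula holds for the Frobenius invariants, with finitely many products `D t` of divisor
classes on `A`, and the cycle map (regulator) of `A × U` in bidegree `(i, j)` is onto the Frobenius
invariants if and only if those of `U` in the bidegrees `(i - 2 k, j - k)`, `0 ≤ k ≤ dim A`, are.

The idea of the proof: by a sieve (helper521, helper484), which only uses the primes `ℓ ≠ p` that
split completely in the Galois closure of `E`, almost all families in a stratum are such that each
pair `α`, `q / α` of roots can be exchanged by a Galois automorphism which fixes all the other
roots of all the `f i` and also all elements of `E`. In a Newton stratum the coefficients of the real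
Weil polynomials are divisible by powers of `p`, and the quotients run through a box with sides at
least `p ^ (t / 2)` up to constants; the events of the sieve at the primes `ℓ ≠ p` are transported
by the multiplication with the powers of `p`. The lower bound for the number of elements of a
stratum is obtained by perturbing the Dickson polynomials, whose coefficients have the right
divisibility by `p` because the polygon lies below the supersingular one.
-/

set_option autoImplicit false

namespace Pool.Agent.Results.MP_81b968_ag.NewtonStrata

open Polynomial Pool.Agent Pool.Agent.W484.TB
  Pool.Agent.N205.NS

/-- `StrataFacts`: the sets of the Weil polynomials with given Newton polygon, or with Newton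
polygon on or above a given one, and the sets of those of given `p`-rank, are strata. -/
theorem result :
    (∀ {I : Type} [Fintype I] (g : I → ℕ) (r : ℕ) (_ : ∀ i, r < g i)
      (E : IntermediateField ℚ ℂ) [FiniteDimensional ℚ E],
      ∃ C : ℝ, ∀ p a t : ℕ, p.Prime → 0 < a → 0 < t → ∀ S : I → Set ℤ[X],
        (∀ i, IsStratum p a (g i) t (S i)) →
        (∀ i, (S i).Finite ∧ (4 ^ g i ≤ p ^ t → (S i).Nonempty)) ∧
        ({f : I → ℤ[X] | (∀ i, f i ∈ S i) ∧ ¬ Y156.L.TateForRankOver E (p ^ a) r f}.ncard : ℝ) ≤
          C * (Real.log ((p ^ t : ℕ) : ℝ) * ((p ^ t : ℕ) : ℝ) ^ (-(1 / 6) : ℝ)) *
            ∏ i, ((S i).ncard : ℝ)) ∧
    StrataFacts :=
  ⟨fun g r hr E _ => strata_count (splitPrimes E) (dense_splitPrimes E) g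
    (fun i => (Nat.zero_le r).trans_lt (hr i)) (fun q f => Y156.L.TateForRankOver E q r f)
    fun _ hq x hx => Y156.L.tate_of_good g E hq.one_lt r hr x hx, strataFacts⟩

end Pool.Agent.Results.MP_81b968_ag.NewtonStrata
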