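import Mathlib
import Pool.Agent.N205.NS.Tate

/-!
# The Tate conjecture for almost all abelian varieties in every Newton stratum, and their products
with all varieties of small Frobenius rank or smaller Newton width

Let `g i` (`i` in a finite set `I`) be positive integers.  By Honda and Tate the irreducible
polynomials in `weilPolys (p ^ a) g` correspond to the isogeny classes of the simple abelian
varieties `A` over the field with `p ^ a` elements whose field `ℚ (π)` has degree `2 g`; the
characteristic polynomial of the Frobenius of `A` is a power of the polynomial (the polynomial itself
if `a = 1` or if `A` is ordinary).  All earlier results on almost all abelian varieties over finite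
fields concern sets which contain the ordinary ones: the other Newton strata have density zero. Here
we prove the Tate conjecture for almost all members of **every** Newton stratum other than the
supersingular one, uniformly in all parameters.

Let `b` be (the first half of) a symmetric Newton polygon of height `2 g` and `a λ = b 1` its first
slope, in the normalisation such that the supersingular polygon has the slope `a / 2`.  Let `S` be the
set of the Weil polynomials of degree `2 g` with Newton polygon `b`, or of those with Newton polygon on
or above `b`, or any set in between; or the set of the Weil polynomials of `p`-rank `r`.  Such sets
are strata (`IsStratum p a g t S`) with a parameter `t`, and the theorem says that in products of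
strata the proportion of the exceptions is at most `C log (p ^ t) (p ^ t) ^ (-1 / 6)` where `C`
depends only on the dimensions (and on `r` and `E` below): neither on `p` and `a` nor on the
polygons.  One may take `t = a` if the `p`-rank is at least two, that is to say
`p ^ t = q` is the cardinality of the field, and for all polygons each `t ≤ a (1 - 2 λ) - 1`, so that
the proportion of the exceptions tends to zero for all polygons with `λ < 1 / 2` as `a` tends to
infinity, and as `p` tends to infinity if `a (1 - 2 λ) > 1`.  Some condition of this kind is
necessary: over the field with `p` elements a positive proportion of the Weil polynomials of degree
four and `p`-rank one is not irreducible (those with middle coefficient `2 p`), and in the supersingular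
stratum all roots are powers of `p` up to roots of unity.

For the families `f i` which are not exceptional and all abelian varieties `A` isogenous to products
of powers of abelian varieties `A i` with characteristic polynomials `f i` (or powers of them), over
all finite extensions of the field, all `s`, and **all** smooth projective varieties `Y` over the field
with `(p ^ a) ^ s` elements, with `H = H ^ w (Y)`:

* (`TateForRankOver`) if the eigenvalues of the Frobenius on `H` and their conjugates generate a group
  of rank at most `r` modulo the numbers with a power in the number field `E`, where `r < g i` for all
  `i`, then each class in `⋀ ^ n H ^ 1 (A) ⊗ H` which is a Tate class over some extension is a linear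
  combination of the products of divisor classes on `A` and a Tate class in `H`;
* (`TateForNarrower`) the same holds if the sum of the `|2 μ - w|`, `μ` the slopes of `H`, is
  smaller than the sum of the `|2 μ - 1|`, `μ` the slopes of `f i`, for all `i`. This sum, the
  Newton width, is twice the distance of the end of the first half of the Newton polygon from the
  supersingular one (divided by `a`), see `WidthFacts`.

So the Tate conjecture holds for `A × Y` if it holds for `Y`, in particular for all `A` itself and
all its powers. By the inequality of Mazur and Ogus the Newton width of `H ^ 1` of a curve of
genus `γ` is at most `2 γ` and that of `H ^ 2` of a surface is at most `4 p_g`.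

The proof: in a Newton stratum the coefficients of the real Weil polynomials are divisible by powers
of `p`, and the quotients run through a box with sides at least `p ^ (t / 2)` up to constants. The
events of the sieve of helper521 and helper484 at the primes `ℓ ≠ p` are transported by the
multiplication with the powers of `p`. The lower bound for the number of elements of a stratum is
obtained by perturbing the Dickson polynomials: their coefficients have the right divisibility
by `p` because the polygon lies below the supersingular one.
-/

set_option autoImplicit false

namespace Pool.Agent.Results.MP_950c68_ag.NewtonStrata

open Polynomial Pool.Agent.W484.TB Pool.Agent.N205.NS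

/-- **The Tate conjecture for almost all abelian varieties in every Newton stratum.** -/
theorem result :
    (∀ {I : Type} [Fintype I] (g : I → ℕ) (r : ℕ) (_ : ∀ i, r < g i)
      (E : IntermediateField ℚ ℂ) [FiniteDimensional ℚ E],
      ∃ C : ℝ, ∀ p a t : ℕ, p.Prime → 0 < a → 0 < t → ∀ S : I → Set ℤ[X],
        (∀ i, IsStratum p a (g i) t (S i)) →
        (∀ i, (S i).Finite ∧ (4 ^ g i ≤ p ^ t → (S i).Nonempty)) ∧
        ({f : I → ℤ[X] | (∀ i, f i ∈ S i) ∧
          ¬ (TateForRankOver E (p ^ a) r f ∧ TateForNarrower (p ^ a) f)}.ncard : ℝ) ≤
          C * (Real.log ((p ^ t : ℕ) : ℝ) * ((p ^ t : ℕ) : ℝ) ^ (-(1 / 6) : ℝ)) *
            ∏ i, ((S i).ncard : ℝ)) ∧
    StrataFacts ∧ WidthFacts :=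
  ⟨fun g r hr E _ => tate_strata g r hr E, strataFacts, widthFacts⟩

end Pool.Agent.Results.MP_950c68_ag.NewtonStrata
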